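import Pool.Agent.R967.FB.Main

/-! Every continuous process whose law is absolutely continuous with respect to (in particular:
equivalent to) the Wiener measure becomes a standard Brownian motion after a suitable random piece
is put in front of it. -/

namespace Pool.Agent.Results.MP_a9102c_pr.RandomPiece

open MeasureTheory ProbabilityTheory Filter Topology Set Pool.Agent.R967.FB
open scoped ENNReal NNReal

/-- The path obtained by putting the piece `Y` on `[0, T]` in front of the path `x`. -/
noncomputable def concat (T : ℝ≥0) (Y x : ℝ≥0 → ℝ) (t : ℝ≥0) : ℝ :=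
  if t ≤ T then Y t else Y T + x (t - T)

/-- The random variable `X`, defined on `(Ω, P)`, admits a random piece `(T, Y)`, defined on an
enlargement `(Ω', P')` of `(Ω, P)`, such that putting this piece in front of `X` gives a standard
Brownian motion. -/
def AdmitsPiece.{u} {Ω : Type u} [MeasurableSpace Ω] (P : Measure Ω) (X : Ω → C(ℝ≥0, ℝ)) : Prop :=
  ∃ (Ω' : Type u) (_ : MeasurableSpace Ω') (P' : Measure Ω') (π : Ω' → Ω),
    IsProbabilityMeasure P' ∧ MeasurePreserving π P' P ∧
    ∃ (T : Ω' → ℝ≥0) (Y : Ω' → C(ℝ≥0, ℝ)), Measurable T ∧ Measurable Y ∧ (∀ ω, Y ω 0 = 0) ∧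
      IsBrownianReal (fun t ω => concat (T ω) (Y ω) (X (π ω)) t) P'

universe u

theorem result {Ω : Type u} [MeasurableSpace Ω] (P : Measure Ω) [IsProbabilityMeasure P]
    (X : Ω → C(ℝ≥0, ℝ)) (hX : Measurable X) (W : Measure C(ℝ≥0, ℝ)) (hW : IsWiener W)
    (hXW : P.map X ≪ W) : AdmitsPiece P X := by
  have hWp : IsProbabilityMeasure W := hW.isGaussianProcess.isProbabilityMeasure
  have hPXp : IsProbabilityMeasure (P.map X) := Measure.isProbabilityMeasure_map hX.aemeasurable
  set D : C(ℝ≥0, ℝ) → ℝ≥0∞ := (P.map X).rnDeriv W with hDdef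
  have hD : Measurable D := Measure.measurable_rnDeriv _ _
  have hPX : P.map X = W.withDensity D := (Measure.withDensity_rnDeriv_eq _ _ hXW).symm
  have hfin : ∀ᵐ w ∂W, D w < ∞ := ae_lt_top hD (by rw [lintegral_D hX hPX]; simp)
  have hproj := newP_proj hW hX hD hPX hfin
  have hZ := newP_map_newZ hW hX hD hPX hfin
  have hP' : IsProbabilityMeasure (newP P W D X) := by
    refine ⟨?_⟩
    have := hproj.measure_preimage (s := univ) MeasurableSet.univ.nullMeasurableSet
    rw [preimage_univ] at this
    rw [this]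
    exact measure_univ
  refine ⟨(Ω × C(ℝ≥0, ℝ)) × ℕ, inferInstance, newP P W D X, fun q => q.1.1, hP', hproj,
    fun q => (q.2 : ℝ≥0), fun q => ⟨fun t => q.1.2 ((q.2 : ℝ≥0) - t) - q.1.2 (q.2 : ℝ≥0), ?_⟩,
    ?_, ?_, ?_, ?_⟩
  · have h1 : Continuous fun t : ℝ≥0 => (q.2 : ℝ≥0) - t := continuous_const.sub continuous_id
    exact (q.1.2.continuous.comp h1).sub continuous_const
  · exact (measurable_of_countable (fun n : ℕ => (n : ℝ≥0))).comp measurable_snd
  · refine measurable_from_prod_countable_left fun s => measurable_path fun t => ?_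
    change Measurable fun a : Ω × C(ℝ≥0, ℝ) => a.2 ((s : ℝ≥0) - t) - a.2 (s : ℝ≥0)
    exact ((measurable_eval _).comp measurable_snd).sub ((measurable_eval _).comp measurable_snd)
  · intro q
    simp
  · have hX0 : ∀ᵐ q ∂(newP P W D X), X q.1.1 0 = 0 := by
      have h1 : ∀ᵐ w ∂(P.map X), w 0 = 0 := by
        rw [hPX]
        exact (withDensity_absolutelyContinuous W D).ae_le (ae_zero hW)
      exact hproj.quasiMeasurePreserving.ae (ae_of_ae_map hX.aemeasurable h1)
    have heq : ∀ᵐ q ∂(newP P W D X), ∀ t, newZ X q t =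
        concat (q.2 : ℝ≥0) (fun t => q.1.2 ((q.2 : ℝ≥0) - t) - q.1.2 (q.2 : ℝ≥0))
          (X q.1.1) t := by
      filter_upwards [hX0] with q hq t
      rw [newZ, prep_apply, concat]
      simp only [hq]
      split_ifs with h
      · rw [tsub_eq_zero_of_le h, hq]
        ring
      · rw [tsub_eq_zero_of_le (not_le.1 h).le, tsub_self]
        ring
    refine ⟨⟨fun I => ?_⟩, ?_⟩
    · have h1 : HasLaw (newZ X) W (newP P W D X) := ⟨(measurable_newZ hX).aemeasurable, hZ⟩
      have h2 := (hW.hasLaw I).comp h1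
      refine h2.congr ?_
      filter_upwards [heq] with q hq
      funext i
      exact (hq i).symm
    · filter_upwards [heq] with q hq
      have : (fun t => concat (q.2 : ℝ≥0) (fun t => q.1.2 ((q.2 : ℝ≥0) - t) - q.1.2 (q.2 : ℝ≥0))
          (X q.1.1) t) = fun t => newZ X q t := by
        funext t
        exact (hq t).symm
      exact this ▸ (newZ X q).continuous

end Pool.Agent.Results.MP_a9102c_pr.RandomPiece
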